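import Pool.Agent.H41.FRM.Cmp3

/-!
# Two points in the chart of the frame, two places

The place `g₀` is the base, the place `g₁` is deeper. `Nb.cls`: near coordinates give near points.
`Nb.nat`: near points have near coordinates. `Nb.plate`: the value of the second system at the
target is Lipschitz in a box of the second place.
-/

set_option autoImplicit false

namespace Pool.FRM

open Finset Real MvPolynomial
open Pool.STAT Pool.MIC.Frm

/-- Two points with near coordinates. -/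
theorem Nb.cls {K n : ℕ} {g : ℕ → ℕ} {F : ℕ → PN} {E W ε : ℝ} (h : Nb K n g F E) (hE : 1 ≤ E)
    (hW : W = 4 * E) (hε : 0 ≤ ε) {u β u' β' : ℕ → ℝ} (p : Ptl n g F u β)
    (p' : Ptl n g F u' β') (hu : ∀ l, 1 ≤ l → l < n → |u l| ≤ E)
    (hu' : ∀ l, 1 ≤ l → l < n → |u' l| ≤ E)
    (hd : ∀ l, 1 ≤ l → l < n → |u l - u' l| ≤ ε) :
    ∀ l < n, |β l - β' l| ≤ W ^ dd K (l + 1) * ε / 2 ^ g l := by
  have hW4 : 4 ≤ W := by linarith
  have hz := h.ptl hE hW p hu
  have hz' := h.ptl hE hW p' hu'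
  intro l
  induction l using Nat.strong_induction_on with
  | _ l ih =>
    intro hl
    rcases Nat.eq_zero_or_pos l with h0 | h0
    · subst h0
      rw [p.1, p'.1, sub_self, abs_zero]
      positivity
    · have hB : (1 : ℝ) ≤ W ^ dd K l := one_le_pow₀ (by linarith)
      have e1 := h.lip (l := l) hl.le hB (δ := W ^ dd K l * ε) (by positivity)
        (β := β) (β' := β')
        (fun k hk => (hz k (hk.trans hl)).trans (div_le_div_of_nonneg_right
          (wpow hE hW hk.le) (by positivity)))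
        (fun k hk => (hz' k (hk.trans hl)).trans (div_le_div_of_nonneg_right
          (wpow hE hW hk.le) (by positivity)))
        (fun k hk => (ih k hk (hk.trans hl)).trans (div_le_div_of_nonneg_right
          (mul_le_mul_of_nonneg_right (wpow hE hW (by omega)) hε) (by positivity)))
      have e2 : |u l / 2 ^ g l - u' l / 2 ^ g l| ≤ ε / 2 ^ g l := by
        rw [← sub_div, abs_div, abs_of_pos (by positivity : (0 : ℝ) < 2 ^ g l)]
        exact div_le_div_of_nonneg_right (hd l h0 hl) (by positivity)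
      rw [p.2 l h0 hl, p'.2 l h0 hl]
      have e3 : eval β (F l) + u l / 2 ^ g l - (eval β' (F l) + u' l / 2 ^ g l) =
          (eval β (F l) - eval β' (F l)) + (u l / 2 ^ g l - u' l / 2 ^ g l) := by ring
      rw [e3]
      refine (abs_add_le _ _).trans ((add_le_add e1 e2).trans ?_)
      rw [← add_div]
      refine div_le_div_of_nonneg_right ?_ (by positivity)
      have := sz2 (K := K) (l := l) hE hW
      have h3 : K * (W ^ dd K l) ^ K * E * (W ^ dd K l * ε) + ε =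
          (K * (W ^ dd K l) ^ K * E * W ^ dd K l + 1) * ε := by ring
      rw [h3]
      exact mul_le_mul_of_nonneg_right (by linarith) hε

/-- Near points have near coordinates. -/
theorem Nb.natd {K n l : ℕ} {g : ℕ → ℕ} {F : ℕ → PN} {E B δ : ℝ} (h : Nb K n g F E)
    (hl : l ≤ n) (hB : 1 ≤ B) (hδ : 0 ≤ δ) {β β' : ℕ → ℝ}
    (hβ : ∀ k < l, |β k| ≤ B / 2 ^ g k) (hβ' : ∀ k < l, |β' k| ≤ B / 2 ^ g k)
    (hd : ∀ k ≤ l, |β k - β' k| ≤ δ / 2 ^ g k) :
    |2 ^ g l * (β l - eval β (F l)) - 2 ^ g l * (β' l - eval β' (F l))| ≤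
      (K * B ^ K * E + 1) * δ := by
  have e1 := h.lip hl hB hδ hβ hβ' fun k hk => hd k hk.le
  have e2 := hd l le_rfl
  have hg : (0 : ℝ) < 2 ^ g l := by positivity
  have e3 : 2 ^ g l * (β l - eval β (F l)) - 2 ^ g l * (β' l - eval β' (F l)) =
      2 ^ g l * ((β l - β' l) - (eval β (F l) - eval β' (F l))) := by ring
  rw [e3, abs_mul, abs_of_pos hg]
  refine (mul_le_mul_of_nonneg_left ((abs_sub _ _).trans (add_le_add e2 e1)) hg.le).trans
    (le_of_eq ?_)
  field_simp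
  ring

section two

variable {K n : ℕ} {g₀ g₁ : ℕ → ℕ} {F₀ F₁ : ℕ → PN} {E W ρ σ : ℝ}

/-- **The second system at the target** in a box of the second place. -/
theorem Nb.plate (h₀ : Nb K n g₀ F₀ E) (h₁ : Nb K n g₁ F₁ E) (hE : 1 ≤ E) (hW : W = 4 * E)
    (hρ : 1 ≤ ρ) (hg0 : g₁ 0 = g₀ 0) (hg : ∀ l, 1 ≤ l → l < n → (2 : ℝ) ^ g₁ l ≤ ρ * 2 ^ g₀ l)
    {δ : ℝ} (hδ : 0 ≤ δ) {u₀ u u' β₀ β β' : ℕ → ℝ} (p₀ : Ptl n g₀ F₀ u₀ β₀)
    (z₀ : ∀ l < n, β₀ l = 0) (p : Ptl n g₀ F₀ u β) (p' : Ptl n g₀ F₀ u' β')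
    (hu₀ : ∀ l, 1 ≤ l → l < n → |u₀ l| ≤ E) (hu : ∀ l, 1 ≤ l → l < n → |u l| ≤ E)
    (hu' : ∀ l, 1 ≤ l → l < n → |u' l| ≤ E)
    (d0 : ∀ l, 1 ≤ l → l < n → |u l - u₀ l| ≤ E / ρ)
    (d0' : ∀ l, 1 ≤ l → l < n → |u' l - u₀ l| ≤ E / ρ)
    (hd : ∀ l, 1 ≤ l → l < n → |u l - u' l| ≤ δ) :
    2 ^ g₁ n * |eval β (F₁ n) - eval β' (F₁ n)| ≤ W ^ dd K (n + 2) * (ρ * δ) := by
  have hW4 : 4 ≤ W := by linarith
  have hρ0 : 0 < ρ := by linarith
  have hg' : ∀ l < n, (2 : ℝ) ^ g₁ l ≤ ρ * 2 ^ g₀ l := by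
    intro l hl
    rcases Nat.eq_zero_or_pos l with h0 | h0
    · subst h0
      rw [hg0]
      exact le_mul_of_one_le_left (by positivity) hρ
    · exact hg l h0 hl
  -- from the first place to the second place
  have conv : ∀ (x : ℝ) (l : ℕ), 0 ≤ x → l < n → x / 2 ^ g₀ l ≤ x * ρ / 2 ^ g₁ l := by
    intro x l hx hl
    rw [div_le_div_iff₀ (by positivity) (by positivity)]
    calc x * 2 ^ g₁ l ≤ x * (ρ * 2 ^ g₀ l) := mul_le_mul_of_nonneg_left (hg' l hl) hx
      _ = x * ρ * 2 ^ g₀ l := by ring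
  have box : ∀ {u β : ℕ → ℝ}, Ptl n g₀ F₀ u β → (∀ l, 1 ≤ l → l < n → |u l| ≤ E) →
      (∀ l, 1 ≤ l → l < n → |u l - u₀ l| ≤ E / ρ) → ∀ k < n,
      |β k| ≤ W ^ dd K (n + 1) / 2 ^ g₁ k := by
    intro u β p hu d0 k hk
    have e1 := h₀.cls hE hW (ε := E / ρ) (by positivity) p p₀ hu hu₀ d0 k hk
    rw [z₀ k hk, sub_zero] at e1
    refine (e1.trans (conv _ k (by positivity) hk)).trans
      (div_le_div_of_nonneg_right ?_ (by positivity))
    have e2 : W ^ dd K (k + 1) * (E / ρ) * ρ = W ^ dd K (k + 1) * E := by field_simp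
    rw [e2]
    have e3 := w3 (K := K) (l := k + 1) hW4
    calc W ^ dd K (k + 1) * E ≤ W ^ dd K (k + 1) * W :=
          mul_le_mul_of_nonneg_left (by linarith) (by positivity)
      _ = W ^ (dd K (k + 1) + 1) := (pow_succ _ _).symm
      _ ≤ W ^ dd K (k + 1 + 1) := pow_le_pow_right₀ (by linarith) (by
          have := dd_step K (k + 1)
          nlinarith [dd_pos K (k + 1)])
      _ ≤ W ^ dd K (n + 1) := wpow hE hW (by omega)
  have hB : (1 : ℝ) ≤ W ^ dd K (n + 1) := one_le_pow₀ (by linarith)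
  have c1 := h₀.cls hE hW hδ p p' hu hu' hd
  have e1 := h₁.lip (l := n) le_rfl hB (δ := W ^ dd K (n + 1) * δ * ρ) (by positivity)
    (β := β) (β' := β') (box p hu d0) (box p' hu' d0')
    (fun k hk => ((c1 k hk).trans (conv _ k (by positivity) hk)).trans
      (div_le_div_of_nonneg_right (mul_le_mul_of_nonneg_right (mul_le_mul_of_nonneg_right
        (wpow hE hW (by omega)) hδ) hρ0.le) (by positivity)))
  have e2 := mul_le_mul_of_nonneg_left e1 (by positivity : (0 : ℝ) ≤ 2 ^ g₁ n)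
  refine e2.trans ?_
  have e3 : 2 ^ g₁ n * (K * (W ^ dd K (n + 1)) ^ K * E * (W ^ dd K (n + 1) * δ * ρ) / 2 ^ g₁ n) =
      (K * (W ^ dd K (n + 1)) ^ K * E * W ^ dd K (n + 1)) * (ρ * δ) := by field_simp
  rw [e3]
  have := sz2 (K := K) (l := n + 1) hE hW
  exact mul_le_mul_of_nonneg_right (by linarith) (by positivity)

/-- Points of a box of the second place have near coordinates at the first place. -/
theorem Nb.coarse (h₀ : Nb K n g₀ F₀ E) (h₁ : Nb K n g₁ F₁ E) (hE : 1 ≤ E) (hW : W = 4 * E)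
    (hσ : 0 ≤ σ) (hσ1 : σ ≤ E)
    (hg : ∀ l, 1 ≤ l → l ≤ n → (2 : ℝ) ^ g₀ l ≤ σ * 2 ^ g₁ l)
    {y β₀ β : ℕ → ℝ} (z₀ : ∀ l ≤ n, β₀ l = 0) (p : Pt n g₁ F₁ y β)
    (hy : ∀ l, 1 ≤ l → l ≤ n → |y l| ≤ E) : ∀ l, 1 ≤ l → l ≤ n →
      |2 ^ g₀ l * (β l - eval β (F₀ l)) - 2 ^ g₀ l * (β₀ l - eval β₀ (F₀ l))| ≤
        W ^ dd K (n + 2) * σ := by
  intro l h1 hl
  have hW4 : 4 ≤ W := by linarith
  have hz := h₁.pt hE hW p hy
  have hb : ∀ k ≤ n, |β k| ≤ W ^ dd K n * σ / 2 ^ g₀ k := by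
    intro k hk
    rcases Nat.eq_zero_or_pos k with h0 | h0
    · subst h0
      rw [p.1, abs_zero]
      positivity
    · refine (hz k hk).trans ?_
      rw [div_le_div_iff₀ (by positivity) (by positivity)]
      calc W ^ dd K k * 2 ^ g₀ k ≤ W ^ dd K n * (σ * 2 ^ g₁ k) :=
            mul_le_mul (wpow hE hW hk) (hg k h0 hk) (by positivity) (by positivity)
        _ = W ^ dd K n * σ * 2 ^ g₁ k := by ring
  have hB : (1 : ℝ) ≤ W ^ dd K (n + 1) := one_le_pow₀ (by linarith)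
  have hBn : W ^ dd K n * σ ≤ W ^ dd K (n + 1) := by
    calc W ^ dd K n * σ ≤ W ^ dd K n * W := mul_le_mul_of_nonneg_left (by linarith)
          (by positivity)
      _ = W ^ (dd K n + 1) := (pow_succ _ _).symm
      _ ≤ W ^ dd K (n + 1) := pow_le_pow_right₀ (by linarith) (by
          have := dd_step K n
          nlinarith [dd_pos K n])
  have e1 := h₀.natd (l := l) hl hB (δ := W ^ dd K n * σ) (by positivity) (β := β) (β' := β₀)
    (fun k hk => (hb k (by omega)).trans (div_le_div_of_nonneg_right hBn (by positivity)))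
    (fun k hk => by
      rw [z₀ k (by omega), abs_zero]
      positivity)
    (fun k hk => by
      rw [z₀ k (by omega), sub_zero]
      exact hb k (by omega))
  refine e1.trans ?_
  have e2 := sz2 (K := K) (l := n + 1) hE hW
  have e3 : W ^ dd K n ≤ W ^ dd K (n + 1) := wpow hE hW (by omega)
  have e4 : 0 < W ^ dd K n := by positivity
  have e5 : (K * (W ^ dd K (n + 1)) ^ K * E + 1) * (W ^ dd K n * σ) ≤
      (K * (W ^ dd K (n + 1)) ^ K * E * W ^ dd K (n + 1) + W ^ dd K n) * σ := by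
    have : (K * (W ^ dd K (n + 1)) ^ K * E) * W ^ dd K n ≤
        (K * (W ^ dd K (n + 1)) ^ K * E) * W ^ dd K (n + 1) :=
      mul_le_mul_of_nonneg_left e3 (by positivity)
    nlinarith
  refine e5.trans (mul_le_mul_of_nonneg_right ?_ hσ)
  -- the size
  have hE1 : (1 : ℝ) ≤ (W ^ dd K (n + 1)) ^ K := one_le_pow₀ hB
  have h6 := sz1 (K := K) (l := n + 1) hE hW
  have h7 : K * (W ^ dd K (n + 1)) ^ K * E * W ^ dd K (n + 1) + W ^ dd K (n + 1) ≤
      W ^ dd K (n + 2) := by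
    have h8 : ((K : ℝ) + 1) ≤ W ^ (K + 1) := by
      calc ((K : ℝ) + 1) ≤ 2 ^ (K + 1) := by
            exact_mod_cast (Nat.lt_two_pow_self (n := K + 1)).le
        _ ≤ W ^ (K + 1) := pow_le_pow_left₀ (by norm_num) (by linarith) _
    have h9 : K * (W ^ dd K (n + 1)) ^ K * E * W ^ dd K (n + 1) + W ^ dd K (n + 1) ≤
        (K + 1) * ((W ^ dd K (n + 1)) ^ K * E * W ^ dd K (n + 1)) := by
      have : W ^ dd K (n + 1) ≤ (W ^ dd K (n + 1)) ^ K * E * W ^ dd K (n + 1) := by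
        refine le_mul_of_one_le_left (by positivity) ?_
        nlinarith
      have h0 : (0 : ℝ) ≤ K := Nat.cast_nonneg K
      nlinarith
    refine h9.trans ?_
    have h10 : (W ^ dd K (n + 1)) ^ K * E * W ^ dd K (n + 1) ≤
        W ^ (dd K (n + 1) * K + 1 + dd K (n + 1)) := by
      rw [pow_add, pow_add, pow_one, pow_mul]
      exact mul_le_mul_of_nonneg_right (mul_le_mul_of_nonneg_left (by linarith) (by positivity))
        (by positivity)
    calc (K + 1) * ((W ^ dd K (n + 1)) ^ K * E * W ^ dd K (n + 1)) ≤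
          W ^ (K + 1) * W ^ (dd K (n + 1) * K + 1 + dd K (n + 1)) :=
          mul_le_mul h8 h10 (by positivity) (by positivity)
      _ = W ^ (K + 1 + (dd K (n + 1) * K + 1 + dd K (n + 1))) := (pow_add _ _ _).symm
      _ ≤ W ^ dd K (n + 2) := pow_le_pow_right₀ (by linarith) (by
          have := dd_step K (n + 1)
          nlinarith)
  linarith

end two

end Pool.FRM
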