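import Pool.Agent.H65.GRD.Leaf
import Pool.Agent.H19.VAS.Def

/-!
# The leaf on the visible side

`leaf_pl`: as `leaf_ev`, for a place which is not the own pair of the shape. `lfA`: the same in the
form of `LfA`.
-/

set_option autoImplicit false

namespace Pool.GSD

open Finset Real MvPolynomial
open Pool.Agent.H49.Ent Pool.Agent.H32.Dense Pool.STK Pool.STAT Pool.MIC.Frm Pool.MIC7 Pool.FRM
open Pool.MIC Pool.MicA
open Pool.BFL (Pl Pb)
open Pool.TIE (elim MB mxs Dat)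

/-- **The leaf**, the place `(iB, jB)` is not the own pair `(iA, jA)` of the shape. -/
theorem leaf_pl (n K' Ds KF : ℕ) (C : ℝ) (hC : 0 ≤ C) : ∃ C' : ℝ, 0 ≤ C' ∧ ∀ (D : NDat2)
    (K z X X₁ M i j iA jA iB jB bb t : ℕ) (pr : ℕ → ℕ × ℕ) (Ms : Finset (Fin (n - 1)))
    (ω : D.Ω) (P : ℕ → PN) (nn : Fin (n - 1) → ℝ)
    (s : Fin (n - 1) → Pl (n - 1)) (F F' : Pl (n - 1)) (B : ℝ), K ≤ K' → 1 ≤ z →
    z + 2 ≤ X → X₁ ≤ X → C' * z ≤ bb → C' * z ≤ X → 1 ≤ n → i < M → j < M → iA < M → jA < M → iB < M → jB < M →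
    (∀ i j x, TriN (D.G i j x)) → (∀ i j x l, (D.G i j x l).totalDegree ≤ K) →
    FrP D n K' M z C P ω → Sd D n K i j (D.Ψ i j) ω → Lo D n X (i, j) (iA, jA) →
    D.g i j n + X₁ ≤ D.g iB jB n →
    (∀ l : Fin (n - 1), l ∈ Ms ↔ D.g iA jA (l + 1) ≤ D.g i j (l + 1)) →
    (∀ l : Fin (n - 1), l ∈ Ms → D.g iB jB (l + 1) ≤ D.g i j (l + 1)) →
    (∀ l : Fin (n - 1), l ∉ Ms → D.g i j (l + 1) + X₁ ≤ D.g iB jB (l + 1)) →
    (∀ l : Fin (n - 1), l ∉ Ms → (pr (l + 1)).1 < M ∧ (pr (l + 1)).2 < M ∧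
      Lo D (l + 1) X (i, j) (pr (l + 1)) ∧ ∀ k : Fin (n - 1), k < l →
        D.g i j (k + 1) < D.g (pr (l + 1)).1 (pr (l + 1)).2 (k + 1) → k ∉ Ms) →
    Shn D n z X i j bb Ds (D.Ψ i j) pr ω Ms s →
    (∀ l : Fin (n - 1), l ∉ Ms → |nn l - (vS D n z i j X (D.Ψ i j) ω l -
      eval (vS D n z i j X (D.Ψ i j) ω) (s l))| ≤ 1 / 2 ^ X) →
    F.totalDegree ≤ KF → F'.totalDegree ≤ KF → 1 ≤ B → (∀ α, |coeff α F| ≤ B) →
    (∀ α, α ≠ 0 → |coeff α F' - coeff α F| ≤ 1 / 2 ^ t) →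
    (∀ α, α ≠ 0 → |coeff α (bind₁ (elim Ms nn s (n - 1)) F) -
      coeff α (shpS D n z i j iA jA bb (D.Ψ i j) n ω)| ≤ 1 / 2 ^ t) →
    (∀ b : ℕ → ℝ, MB D i j iB jB n ω b → ∀ l, 1 ≤ l → l < n →
      |eval b (D.Ψ iB jB ω l) - eval b (D.Ψ i j ω l)| ≤
        exp (C' * z) / 2 ^ min (D.g i j l) (D.g iB jB l)) ∧
    ∀ b b' : ℕ → ℝ, MB D i j iB jB n ω b → MB D i j iB jB n ω b' →
      |(eval b (vtP n z (D.g i j) (D.Ψ i j ω) F') - eval b (D.Ψ iB jB ω n)) -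
        (eval b' (vtP n z (D.g i j) (D.Ψ i j ω) F') - eval b' (D.Ψ iB jB ω n))| ≤
        exp (C' * z) * (B / 2 ^ X₁ + 1 / 2 ^ t) / 2 ^ D.g i j n := by
  obtain ⟨C₂, hC₂, hpk⟩ := fr_pack n K' C hC
  obtain ⟨K₂, hK₂⟩ : ∃ K₂ : ℕ, K₂ = K' * (K' + 1) ^ n := ⟨_, rfl⟩
  obtain ⟨a₀, ha₀⟩ : ∃ a₀ : ℝ, a₀ = (C₂ + 2) * dd K₂ (n + 3) := ⟨_, rfl⟩
  have ha₀0 : 0 ≤ a₀ := by rw [ha₀]; positivity
  obtain ⟨C₃, hC₃, htot⟩ := tot_core n K' Ds KF C a₀ hC ha₀0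
  refine ⟨C₃ + a₀ + 2, by positivity, ?_⟩
  intro D K z X X₁ M i j iA jA iB jB bb t pr Ms ω P nn s F F' B hK hz hX hX₁ hbb hXz hn1 hi hj hiA hjA hiB
    hjB tG dG hF hS hLA hgn hMs hMw hMn hpr hs hnn dF dF' hB hFc hFF hmt
  have hzr : (1 : ℝ) ≤ z := by exact_mod_cast hz
  have hz0 : (0 : ℝ) ≤ z := by linarith
  have h2z : (1 : ℝ) ≤ 2 ^ z := one_le_pow₀ (by norm_num)
  have hCz : C₃ * z ≤ (C₃ + a₀ + 2) * z := mul_le_mul_of_nonneg_right (by linarith) hz0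
  obtain ⟨hNb, hNo, hE⟩ := hpk D K z M i j (D.Ψ i j) ω P hK hz hi hj tG dG hF hS
  have hF' := hF
  obtain ⟨hP, dP, vP, nP⟩ := hF
  have hx₀ : eval (D.X ω) (P 0) = D.X ω 0 := vP 0 (Nat.zero_le _)
  obtain ⟨E, hEe⟩ : ∃ E : ℝ, E = exp (C₂ * z) := ⟨_, rfl⟩
  rw [← hEe, ← hK₂] at hNb hNo
  rw [← hEe] at hE
  have hE1 : 1 ≤ E := by linarith
  obtain ⟨A, hA⟩ : ∃ A : ℝ, A = exp (a₀ * z) := ⟨_, rfl⟩
  have hA1 : 1 ≤ A := by rw [hA]; exact one_le_exp (by positivity)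
  have hWA : ∀ k ≤ n + 3, (4 * E) ^ dd K₂ k ≤ A := by
    intro k hk
    rw [hEe, hA, ha₀]
    exact w_le hz hC₂ (dd_mono hk)
  have h2X : (0 : ℝ) < 2 ^ X := by positivity
  have h2X₁ : (0 : ℝ) < 2 ^ X₁ := by positivity
  obtain ⟨Z, hZ⟩ : ∃ Z : ℝ, Z = 2 ^ (X - X₁) := ⟨_, rfl⟩
  have hZ1 : 1 ≤ Z := by rw [hZ]; exact one_le_pow₀ (by norm_num)
  have hZX : Z * 2 ^ X₁ = 2 ^ X := by
    rw [hZ, ← pow_add]
    congr 1
    omega
  have hAZ : ∀ A : ℝ, A * Z / 2 ^ X = A / 2 ^ X₁ := fun A => by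
    rw [← hZX]
    field_simp
  have tB : TriN (D.Ψ iB jB ω) := tG _ _ _
  -- one point
  have one : ∀ b : ℕ → ℝ, MB D i j iB jB n ω b →
      (∀ l, 1 ≤ l → l < n → |eval b (D.Ψ iB jB ω l) - eval b (D.Ψ i j ω l)| ≤
        exp ((C₃ + a₀ + 2) * z) / 2 ^ min (D.g i j l) (D.g iB jB l)) ∧
      (∀ l, |scv n z (D.g i j) (D.Ψ i j ω) b l| ≤ A) ∧
      (∀ l ∈ Ms, |scv n z (D.g i j) (D.Ψ i j ω) b l| ≤ 1) ∧
      (∀ l : Fin (n - 1), l ∉ Ms → |zs P (fpt D n z i j (D.Ψ i j) ω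
          (scv n z (D.g i j) (D.Ψ i j ω) b)) ((l : ℕ) + 1)| ≤
        A / 2 ^ X₁ / 2 ^ D.g i j (l + 1)) ∧
      |2 ^ D.g i j n * (eval b (vtP n z (D.g i j) (D.Ψ i j ω) F') - eval b (D.Ψ iB jB ω n)) -
        (eval (scv n z (D.g i j) (D.Ψ i j ω) b) F' -
          eval (scv n z (D.g i j) (D.Ψ i j ω) b) (PiS D n z i j (D.Ψ i j) P ω))| ≤ A / 2 ^ X₁ := by
    intro b hb
    have hb0 : b 0 = D.X ω 0 := hb.1
    have hz0' : zs P b 0 = 0 := zs_zero hP hb0 hx₀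
    have ez : ∀ l, 1 ≤ l → ∀ i₁ j₁, zs P b l - eval (zs P b) (ch P (D.X ω 0) (D.Ψ i₁ j₁ ω) l) =
        b l - eval b (D.Ψ i₁ j₁ ω l) := by
      intro l hl i₁ j₁
      rw [eval_ch hP hb0 hl]
      unfold zs
      ring
    have hth : ∀ l, 1 ≤ l → l < n → D.g i j l < D.g iB jB l →
        |zs P b l - eval (zs P b) (ch P (D.X ω 0) (D.Ψ iB jB ω) l)| ≤ E / 2 ^ D.g iB jB l := by
      intro l h1 h2 ht
      rw [ez l h1]
      have := hb.2 l h1 h2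
      unfold mxs at this
      simp only at this
      rw [if_pos ht, max_eq_right ht.le] at this
      exact this.trans (div_le_div_of_nonneg_right hE1 (by positivity))
    have hft : ∀ l, 1 ≤ l → l < n → D.g iB jB l ≤ D.g i j l →
        |zs P b l - eval (zs P b) (ch P (D.X ω 0) (D.Ψ i j ω) l)| ≤ 1 / 2 ^ D.g i j l := by
      intro l h1 h2 ht
      rw [ez l h1]
      have := hb.2 l h1 h2
      unfold mxs at this
      simp only at this
      rwa [if_neg (not_lt.2 ht), max_eq_left ht] at this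
    have hft' : ∀ l, 1 ≤ l → l < n → D.g iB jB l ≤ D.g i j l →
        |zs P b l - eval (zs P b) (ch P (D.X ω 0) (D.Ψ i j ω) l)| ≤ E / 2 ^ D.g i j l :=
      fun l h1 h2 ht => (hft l h1 h2 ht).trans (div_le_div_of_nonneg_right hE1 (by positivity))
    have bd := mix_bd (hNb n le_rfl) (hNo iB hiB jB hjB n le_rfl) hE1 rfl hz0' hth hft'
    have vl : ∀ l ≤ n, |eval (zs P b) (ch P (D.X ω 0) (D.Ψ i j ω) l)| ≤
        (4 * E) ^ dd K₂ (l + 1) / 2 ^ D.g i j l := by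
      intro l hl
      have hB' : (1 : ℝ) ≤ (4 * E) ^ dd K₂ l := one_le_pow₀ (by linarith)
      have e1 := (hNb n le_rfl).val (l := l) hl hB' (β := zs P b) (fun k hk =>
        ((bd k (by omega)).1).trans (div_le_div_of_nonneg_right (wpow hE1 rfl hk.le)
          (by positivity)))
      refine e1.trans (div_le_div_of_nonneg_right ?_ (by positivity))
      have := sz1 (K := K₂) (l := l) hE1 rfl
      linarith
    have vo : ∀ l ≤ n, |eval (zs P b) (ch P (D.X ω 0) (D.Ψ iB jB ω) l)| ≤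
        (4 * E) ^ dd K₂ (l + 1) / 2 ^ D.g iB jB l := by
      intro l hl
      have hB' : (1 : ℝ) ≤ (4 * E) ^ dd K₂ l := one_le_pow₀ (by linarith)
      have e1 := (hNo iB hiB jB hjB n le_rfl).val (l := l) hl hB' (β := zs P b) (fun k hk =>
        ((bd k (by omega)).2).trans (div_le_div_of_nonneg_right (wpow hE1 rfl hk.le)
          (by positivity)))
      refine e1.trans (div_le_div_of_nonneg_right ?_ (by positivity))
      have := sz1 (K := K₂) (l := l) hE1 rfl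
      linarith
    have hnat : ∀ l, 1 ≤ l → l < n → |nat (D.g i j) (D.Ψ i j ω) b l| ≤
        (4 * E) ^ dd K₂ (l + 2) := by
      intro l h1 h2
      have e1 := (bd l h2).1
      have e2 := vl l h2.le
      have hg : (0 : ℝ) < 2 ^ D.g i j l := by positivity
      have e3 : nat (D.g i j) (D.Ψ i j ω) b l = 2 ^ D.g i j l *
          (zs P b l - eval (zs P b) (ch P (D.X ω 0) (D.Ψ i j ω) l)) := by
        rw [ez l h1]
        rfl
      rw [e3, abs_mul, abs_of_pos hg]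
      have e4 := mul_le_mul_of_nonneg_left ((abs_sub _ _).trans (add_le_add e1 e2)) hg.le
      refine e4.trans ?_
      have e5 : (2 : ℝ) ^ D.g i j l * ((4 * E) ^ dd K₂ l / 2 ^ D.g i j l +
          (4 * E) ^ dd K₂ (l + 1) / 2 ^ D.g i j l) =
          (4 * E) ^ dd K₂ l + (4 * E) ^ dd K₂ (l + 1) := by field_simp
      rw [e5]
      have a1 := w3 (K := K₂) (l := l) (W := 4 * E) (by linarith)
      have a2 := w3 (K := K₂) (l := l + 1) (W := 4 * E) (by linarith)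
      have a3 : 0 < (4 * E) ^ dd K₂ l := by positivity
      have a4 : 0 < (4 * E) ^ dd K₂ (l + 1) := by positivity
      linarith
    refine ⟨?_, ?_, ?_, ?_, ?_⟩
    · intro l h1 h2
      have e1 := vl l h2.le
      have e2 := vo l h2.le
      have e3 : eval b (D.Ψ iB jB ω l) - eval b (D.Ψ i j ω l) =
          eval (zs P b) (ch P (D.X ω 0) (D.Ψ iB jB ω) l) -
            eval (zs P b) (ch P (D.X ω 0) (D.Ψ i j ω) l) := by
        rw [eval_ch hP hb0 h1, eval_ch hP hb0 h1]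
        ring
      rw [e3]
      refine (abs_sub _ _).trans ?_
      obtain ⟨μ, hμ⟩ : ∃ μ, μ = min (D.g i j l) (D.g iB jB l) := ⟨_, rfl⟩
      rw [← hμ]
      have m1 : (4 * E) ^ dd K₂ (l + 1) / 2 ^ D.g i j l ≤ (4 * E) ^ dd K₂ (l + 1) / 2 ^ μ :=
        div_le_div_of_nonneg_left (by positivity) (by positivity)
          (pow_le_pow_right₀ (by norm_num) (by rw [hμ]; exact min_le_left _ _))
      have m2 : (4 * E) ^ dd K₂ (l + 1) / 2 ^ D.g iB jB l ≤ (4 * E) ^ dd K₂ (l + 1) / 2 ^ μ :=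
        div_le_div_of_nonneg_left (by positivity) (by positivity)
          (pow_le_pow_right₀ (by norm_num) (by rw [hμ]; exact min_le_right _ _))
      refine (add_le_add (e2.trans m2) (e1.trans m1)).trans ?_
      rw [← add_div]
      refine div_le_div_of_nonneg_right ?_ (by positivity)
      have a1 := w3 (K := K₂) (l := l + 1) (W := 4 * E) (by linarith)
      have a2 : (4 * E) ^ dd K₂ (l + 1 + 1) ≤ A := hWA _ (by omega)
      have a3 : A ≤ exp ((C₃ + a₀ + 2) * z) := by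
        rw [hA]
        exact exp_le_exp.2 (mul_le_mul_of_nonneg_right (by linarith) hz0)
      have a4 : 0 < (4 * E) ^ dd K₂ (l + 1) := by positivity
      linarith
    · intro l
      have hl := l.2
      have e1 := hnat (l + 1) (by omega) (by omega)
      have e2 : |scv n z (D.g i j) (D.Ψ i j ω) b l| ≤ |nat (D.g i j) (D.Ψ i j ω) b (l + 1)| + 1 := by
        unfold scv up
        rw [abs_div, abs_of_pos (by positivity : (0 : ℝ) < 4 * 2 ^ z),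
          div_le_iff₀ (by positivity)]
        refine (abs_add_le _ _).trans ?_
        rw [abs_of_pos (by positivity : (0 : ℝ) < 2 * 2 ^ z)]
        have p0 := abs_nonneg (nat (D.g i j) (D.Ψ i j ω) b ((l : ℕ) + 1))
        nlinarith
      refine e2.trans ?_
      have a2 : (4 * E) ^ dd K₂ (l + 1 + 2 + 1) ≤ A := hWA _ (by omega)
      have a1 := w3 (K := K₂) (l := l + 1 + 2) (W := 4 * E) (by linarith)
      have a5 : 1 ≤ (4 * E) ^ dd K₂ (l + 1 + 2) := one_le_pow₀ (by linarith)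
      linarith
    · intro l hl
      have hl2 := l.2
      have e1 := hft (l + 1) (by omega) (by omega) (hMw l hl)
      rw [ez _ (by omega)] at e1
      have e2 := up_bd (z := z) (nat_le e1)
      rw [abs_le]
      unfold scv
      constructor <;> linarith [e2.1, e2.2]
    · intro l hl
      have hl2 := l.2
      have e0 : zs P (fpt D n z i j (D.Ψ i j) ω (scv n z (D.g i j) (D.Ψ i j ω) b))
          ((l : ℕ) + 1) = zs P b ((l : ℕ) + 1) :=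
        zs_congr hP (m := n) (fun r hr => fpt_scv hS.tri hb0 hr) (by omega)
      rw [e0]
      have e1 := (bd (l + 1) (by omega)).2
      refine e1.trans ?_
      have e2 : (2 : ℝ) ^ X₁ * 2 ^ D.g i j (l + 1) ≤ 2 ^ D.g iB jB (l + 1) := by
        rw [← pow_add]
        refine pow_le_pow_right₀ (by norm_num) ?_
        have := hMn l hl
        omega
      rw [div_div]
      exact div_le_div₀ (by linarith) (hWA _ (by omega)) (by positivity) e2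
    · have hg : (0 : ℝ) < 2 ^ D.g i j n := by positivity
      have hP1 : eval (fpt D n z i j (D.Ψ i j) ω (scv n z (D.g i j) (D.Ψ i j ω) b)) (P n) =
          eval b (P n) :=
        Pool.SYS35.eval_congr (hP n) fun r hr => fpt_scv hS.tri hb0 hr
      have hP2 : eval (fpt D n z i j (D.Ψ i j) ω (scv n z (D.g i j) (D.Ψ i j ω) b))
          (D.Ψ i j ω n) = eval b (D.Ψ i j ω n) :=
        Pool.SYS35.eval_congr (hS.tri n) fun r hr => fpt_scv hS.tri hb0 hr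
      rw [eval_PiS, hP1, hP2, eval_vtP]
      have e1 : 2 ^ D.g i j n * (eval b (D.Ψ i j ω n) +
          1 / 2 ^ D.g i j n * eval (scv n z (D.g i j) (D.Ψ i j ω) b) F' -
            eval b (D.Ψ iB jB ω n)) -
          (eval (scv n z (D.g i j) (D.Ψ i j ω) b) F' -
            2 ^ D.g i j n * (eval b (P n) - eval b (D.Ψ i j ω n))) =
          -(2 ^ D.g i j n * eval (zs P b) (ch P (D.X ω 0) (D.Ψ iB jB ω) n)) := by
        rw [eval_ch hP hb0 hn1]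
        field_simp
        ring
      rw [e1, abs_neg, abs_mul, abs_of_pos hg]
      have e2 := mul_le_mul_of_nonneg_left (vo n le_rfl) hg.le
      refine e2.trans ?_
      rw [← mul_div_assoc, div_le_div_iff₀ (by positivity) h2X₁]
      have e3 : (2 : ℝ) ^ D.g i j n * 2 ^ X₁ ≤ 2 ^ D.g iB jB n := by
        rw [← pow_add]
        exact pow_le_pow_right₀ (by norm_num) hgn
      calc 2 ^ D.g i j n * (4 * E) ^ dd K₂ (n + 1) * 2 ^ X₁
          = (4 * E) ^ dd K₂ (n + 1) * (2 ^ D.g i j n * 2 ^ X₁) := by ring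
        _ ≤ A * 2 ^ D.g iB jB n :=
            mul_le_mul (hWA _ (by omega)) e3 (by positivity) (by linarith)
  refine ⟨fun b hb => (one b hb).1, ?_⟩
  intro b b' hb hb'
  obtain ⟨-, w1, w2, w3', w4⟩ := one b hb
  obtain ⟨-, u1, u2, u3, u4⟩ := one b' hb'
  have key := htot D K z X M i j iA jA bb t pr Ms (D.Ψ i j) ω P nn s F F' (A * Z) B hK hz hX
    (hCz.trans hbb) (hCz.trans hXz) hn1 hi hj hiA hjA tG dG hF' hS hLA hMs hpr hs hnn dF dF'
    (one_le_mul_of_one_le_of_one_le hA1 hZ1) hB hFc hFF hmt _ _ (fun l => (w1 l).trans hA.le)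
    (fun l => (u1 l).trans hA.le) w2 u2
    (fun l hl => by rw [hAZ]; exact w3' l hl) (fun l hl => by rw [hAZ]; exact u3 l hl)
  have e0 : A * Z * B / 2 ^ X = A * B / 2 ^ X₁ := by
    rw [← hZX]
    field_simp
  rw [e0] at key
  have hg : (0 : ℝ) < 2 ^ D.g i j n := by positivity
  rw [le_div_iff₀ hg]
  obtain ⟨x, hx⟩ : ∃ x, x = eval b (vtP n z (D.g i j) (D.Ψ i j ω) F') -
    eval b (D.Ψ iB jB ω n) := ⟨_, rfl⟩
  obtain ⟨x', hx'⟩ : ∃ x, x = eval b' (vtP n z (D.g i j) (D.Ψ i j ω) F') -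
    eval b' (D.Ψ iB jB ω n) := ⟨_, rfl⟩
  rw [← hx] at w4 ⊢
  rw [← hx'] at u4 ⊢
  have e1 : |x - x'| * 2 ^ D.g i j n = |2 ^ D.g i j n * x - 2 ^ D.g i j n * x'| := by
    rw [← mul_sub, abs_mul, abs_of_pos hg, mul_comm]
  rw [e1]
  have e2 : |2 ^ D.g i j n * x - 2 ^ D.g i j n * x'| ≤
      exp (C₃ * z) * (A * B / 2 ^ X₁ + 1 / 2 ^ t) + 2 * (A / 2 ^ X₁) := by
    rw [abs_le] at w4 u4 key ⊢
    constructor <;> linarith [w4.1, w4.2, u4.1, u4.2, key.1, key.2]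
  refine e2.trans ?_
  have c1 : (3 : ℝ) ≤ exp (2 * z) := by
    have h1 : (6 : ℝ) ≤ exp 2 := exp_two
    have h2 : exp 2 ≤ exp (2 * z) := exp_le_exp.2 (by linarith)
    linarith
  have c2 : exp ((C₃ + a₀ + 2) * z) = exp (C₃ * z) * A * exp (2 * z) := by
    rw [hA, ← exp_add, ← exp_add]
    congr 1
    ring
  rw [c2]
  have c3 : 1 ≤ exp (C₃ * z) := one_le_exp (by positivity)
  obtain ⟨e, he⟩ : ∃ e, e = exp (C₃ * z) := ⟨_, rfl⟩
  rw [← he] at c3 ⊢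
  obtain ⟨f, hf⟩ : ∃ f, f = exp (2 * (z : ℝ)) := ⟨_, rfl⟩
  rw [← hf] at c1 ⊢
  have d1 : A / 2 ^ X₁ ≤ e * A * (B / 2 ^ X₁) := by
    have : A * 1 ≤ e * A * B := by
      calc A * 1 ≤ (e * A) * B := mul_le_mul (le_mul_of_one_le_left (by linarith) c3) hB
            (by norm_num) (by positivity)
        _ = e * A * B := rfl
    rw [← mul_div_assoc]
    exact div_le_div_of_nonneg_right (by linarith) h2X₁.le
  have d2 : e * (A * B / 2 ^ X₁ + 1 / 2 ^ t) ≤ e * A * (B / 2 ^ X₁ + 1 / 2 ^ t) := by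
    have h1 : 1 / (2 : ℝ) ^ t ≤ A * (1 / 2 ^ t) := le_mul_of_one_le_left (by positivity) hA1
    have h2 : e * (A * B / 2 ^ X₁ + 1 / 2 ^ t) ≤ e * (A * B / 2 ^ X₁ + A * (1 / 2 ^ t)) :=
      mul_le_mul_of_nonneg_left (by linarith) (by linarith)
    refine h2.trans (le_of_eq ?_)
    ring
  have d3 : 0 ≤ e * A * (B / 2 ^ X₁ + 1 / 2 ^ t) := by positivity
  have d4 : e * A * (B / 2 ^ X₁) ≤ e * A * (B / 2 ^ X₁ + 1 / 2 ^ t) :=
    mul_le_mul_of_nonneg_left (by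
      have : (0 : ℝ) ≤ 1 / 2 ^ t := by positivity
      linarith) (by positivity)
  have d5 : e * A * f * (B / 2 ^ X₁ + 1 / 2 ^ t) = f * (e * A * (B / 2 ^ X₁ + 1 / 2 ^ t)) := by ring
  rw [d5]
  nlinarith

/-- **`LfA`.** -/
theorem lfA (n K' Ds KF : ℕ) (C : ℝ) (hC : 0 ≤ C) : ∃ C' : ℝ, 0 ≤ C' ∧ ∀ (D : NDat2)
    (K z X X₁ M i j iA jA iB jB bb t : ℕ) (pr : ℕ → ℕ × ℕ) (Ms : Finset (Fin (n - 1)))
    (ω : D.Ω) (P : ℕ → PN) (nn : Fin (n - 1) → ℝ)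
    (s : Fin (n - 1) → Pl (n - 1)) (F F' : Pl (n - 1)) (B : ℝ), K ≤ K' → 1 ≤ z →
    z + 2 ≤ X → X₁ ≤ X → C' * z ≤ bb → C' * z ≤ X → 1 ≤ n → i < M → j < M → iA < M → jA < M → iB < M →
    jB < M → (∀ i j x, TriN (D.G i j x)) → (∀ i j x l, (D.G i j x l).totalDegree ≤ K) →
    FrP D n K' M z C P ω → Sd D n K i j (D.Ψ i j) ω → Lo D n X (i, j) (iA, jA) →
    D.g i j n + X₁ ≤ D.g iB jB n →
    (∀ l : Fin (n - 1), l ∈ Ms ↔ D.g iA jA (l + 1) ≤ D.g i j (l + 1)) →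
    (∀ l : Fin (n - 1), l ∈ Ms → D.g iB jB (l + 1) ≤ D.g i j (l + 1)) →
    (∀ l : Fin (n - 1), l ∉ Ms → D.g i j (l + 1) + X₁ ≤ D.g iB jB (l + 1)) →
    (∀ l : Fin (n - 1), l ∉ Ms → (pr (l + 1)).1 < M ∧ (pr (l + 1)).2 < M ∧
      Lo D (l + 1) X (i, j) (pr (l + 1)) ∧ ∀ k : Fin (n - 1), k < l →
        D.g i j (k + 1) < D.g (pr (l + 1)).1 (pr (l + 1)).2 (k + 1) → k ∉ Ms) →
    Shn D n z X i j bb Ds (D.Ψ i j) pr ω Ms s →
    (∀ l : Fin (n - 1), l ∉ Ms → |nn l - (vS D n z i j X (D.Ψ i j) ω l -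
      eval (vS D n z i j X (D.Ψ i j) ω) (s l))| ≤ 1 / 2 ^ X) →
    F.totalDegree ≤ KF → F'.totalDegree ≤ KF → 1 ≤ B → (∀ α, |coeff α F| ≤ B) →
    (∀ α, α ≠ 0 → |coeff α F' - coeff α F| ≤ 1 / 2 ^ t) →
    (∀ α, α ≠ 0 → |coeff α (bind₁ (elim Ms nn s (n - 1)) F) -
      coeff α (shpS D n z i j iA jA bb (D.Ψ i j) n ω)| ≤ 1 / 2 ^ t) →
    Pool.VAS.LfA D n z i j iB jB F' (exp (C' * z) * (B / 2 ^ X₁ + 1 / 2 ^ t)) ω := by
  obtain ⟨C', hC', h⟩ := leaf_pl n K' Ds KF C hC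
  refine ⟨C', hC', ?_⟩
  intro D K z X X₁ M i j iA jA iB jB bb t pr Ms ω P nn s F F' B hK hz hX hX₁ hbb hXz hn1 hi hj hiA hjA hiB
    hjB tG dG hF hS hLA hgn hMs hMw hMn hpr hs hnn dF dF' hB hFc hFF hmt b b' hb hb'
  exact (h D K z X X₁ M i j iA jA iB jB bb t pr Ms ω P nn s F F' B hK hz hX hX₁ hbb hXz hn1 hi hj hiA hjA
    hiB hjB tG dG hF hS hLA hgn hMs hMw hMn hpr hs hnn dF dF' hB hFc hFF hmt).2 b b' hb hb'

end Pool.GSD
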