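import Pool.Agent.H19.TIE.Vis

/-!
# Two plates through one point

`V` is the position in the base, `nu` the height of the target, `z` a coarse context, `s` the label
of the plate. The base is full given the plate, the height has few values given the base and the
plate, and is not full given the base. If two plates with different gradients meet in a slab, then
the gradient is a function of the position and of the coarse context, on an event.
-/

set_option autoImplicit false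

namespace Pool.GRD

open Finset Real
open Pool.Agent.H49.Ent Pool.Agent.H32.Dense Pool.STK Pool.BFL Pool.MIC Pool.TIE

/-- Counting bound for integer vectors, with different radii. -/
theorem CH_le_box {Ω T : Type} [Fintype Ω] {d : ℕ} {p : Ω → ℝ} (hp : IsLaw p)
    (X : Ω → Fin d → ℤ) (W : Ω → T) (L : T → Fin d → ℝ) (hL : ∀ w k, 0 ≤ L w k)
    (hX : ∀ ω ω', 0 < p ω → 0 < p ω' → W ω = W ω' → ∀ k,
      |((X ω k - X ω' k : ℤ) : ℝ)| ≤ L (W ω) k) :
    CH p X W ≤ Ex p (fun ω => ∑ k, Real.log (2 * L (W ω) k + 1)) := by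
  classical
  set ref : T → Option Ω := fun w =>
    if h : ∃ ω, 0 < p ω ∧ W ω = w then some h.choose else none with href
  have hrefs : ∀ ω, 0 < p ω → ∃ ω₀, ref (W ω) = some ω₀ ∧ 0 < p ω₀ ∧ W ω₀ = W ω := by
    intro ω hω
    have h : ∃ ω', 0 < p ω' ∧ W ω' = W ω := ⟨ω, hω, rfl⟩
    exact ⟨_, dif_pos h, h.choose_spec.1, h.choose_spec.2⟩
  set F : T → Finset (Fin d → ℤ) := fun w =>
    match ref w with
    | none => ∅
    | some ω₀ => Fintype.piFinset fun k => Finset.Icc (X ω₀ k - ⌊L w k⌋) (X ω₀ k + ⌊L w k⌋)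
    with hF
  have hmem : ∀ ω, 0 < p ω → X ω ∈ F (W ω) := by
    intro ω hω
    obtain ⟨ω₀, e1, e2, e3⟩ := hrefs ω hω
    simp only [hF, e1]
    rw [Fintype.mem_piFinset]
    intro k
    have h2 := hX ω₀ ω e2 hω e3 k
    rw [e3, abs_le] at h2
    have h3 : (X ω k - X ω₀ k : ℤ) ≤ ⌊L (W ω) k⌋ := Int.le_floor.mpr (by push_cast at h2 ⊢; linarith)
    have h4 : (X ω₀ k - X ω k : ℤ) ≤ ⌊L (W ω) k⌋ := Int.le_floor.mpr (by push_cast at h2 ⊢; linarith)
    rw [Finset.mem_Icc]
    constructor <;> linarith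
  refine (CH_le_card hp.nonneg hp.sum_one X W F hmem).trans ?_
  refine Ex_mono hp.nonneg fun ω hω => ?_
  obtain ⟨ω₀, e1, e2, e3⟩ := hrefs ω hω
  have hcard : ((F (W ω)).card : ℝ) ≤ ∏ k, (2 * L (W ω) k + 1) := by
    simp only [hF, e1]
    rw [Fintype.card_piFinset]
    push_cast
    refine Finset.prod_le_prod (fun _ _ => by positivity) fun k _ => ?_
    rw [Int.card_Icc]
    have h6 : 0 ≤ ⌊L (W ω) k⌋ := Int.floor_nonneg.mpr (hL _ _)
    have h7 : ((X ω₀ k + ⌊L (W ω) k⌋ + 1 - (X ω₀ k - ⌊L (W ω) k⌋)).toNat : ℤ) =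
        2 * ⌊L (W ω) k⌋ + 1 := by
      rw [Int.toNat_of_nonneg (by linarith)]
      ring
    have h8 : ((X ω₀ k + ⌊L (W ω) k⌋ + 1 - (X ω₀ k - ⌊L (W ω) k⌋)).toNat : ℝ) =
        2 * ⌊L (W ω) k⌋ + 1 := by
      exact_mod_cast h7
    rw [h8]
    have h9 := Int.floor_le (L (W ω) k)
    linarith
  have hpos : (0 : ℝ) < (F (W ω)).card := by
    exact_mod_cast Finset.card_pos.mpr ⟨_, hmem ω hω⟩
  calc Real.log ((F (W ω)).card) ≤ Real.log (∏ k, (2 * L (W ω) k + 1)) :=
        Real.log_le_log hpos hcard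
    _ = ∑ k, Real.log (2 * L (W ω) k + 1) := Real.log_prod fun k _ => by
        have := hL (W ω) k
        linarith

section two

variable {Ω X Z S : Type} [Fintype Ω] {p : Ω → ℝ}

/-- **Two copies.** -/
theorem two_copies (hp : IsLaw p) (x : Ω → X) (z : Ω → Z) (s : Ω → S) :
    2 * CH p x (fun ω => (s ω, z ω)) - CH p x z ≤
      CH (glue p p (fun ω => (x ω, z ω)) (fun ω => (x ω, z ω))) (fun w => x w.1)
        (fun w => (s w.1, (s w.2, z w.1))) := by
  obtain ⟨ρ, hρ⟩ : ∃ ρ : Ω → X × Z, ρ = fun ω => (x ω, z ω) := ⟨_, rfl⟩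
  rw [← hρ]
  have hg : ∀ w, 0 ≤ glue p p ρ ρ w := fun w => glue_nonneg hp.nonneg hp.nonneg w
  have m1 : Marg (glue p p ρ ρ) p (fun w => w.1) := marg_fst hp.nonneg (fun _ => rfl)
  have m2 : Marg (glue p p ρ ρ) p (fun w => w.2) := marg_snd hp.nonneg (fun _ => rfl)
  have hsup : ∀ w, 0 < glue p p ρ ρ w → x w.1 = x w.2 ∧ z w.1 = z w.2 := fun w hw => by
    have h1 := ((glue_pos_iff hp.nonneg hp.nonneg w).1 hw).2.2
    rw [hρ] at h1
    exact Prod.ext_iff.1 h1
  -- given the second copy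
  have a1 : CH (glue p p ρ ρ) (fun w => x w.1) (fun w => (s w.2, z w.1)) =
      CH p x (fun ω => (s ω, z ω)) := by
    rw [← m2.CH x (fun ω => (s ω, z ω))]
    refine CH_congr hg ?_ ?_ ?_ ?_
    · intro w w' a b h
      have h2 : x w.1 = x w'.1 := (Prod.ext_iff.1 h).1
      show x w.2 = x w'.2
      rw [← (hsup w a).1, ← (hsup w' b).1, h2]
    · intro w w' a b h
      have h2 : x w.2 = x w'.2 := (Prod.ext_iff.1 h).1
      show x w.1 = x w'.1
      rw [(hsup w a).1, (hsup w' b).1, h2]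
    · intro w w' a b h
      have h2 : s w.2 = s w'.2 := (Prod.ext_iff.1 h).1
      have h3 : z w.1 = z w'.1 := (Prod.ext_iff.1 h).2
      show (s w.2, z w.2) = (s w'.2, z w'.2)
      rw [← (hsup w a).2, ← (hsup w' b).2, h2, h3]
    · intro w w' a b h
      have h2 : s w.2 = s w'.2 := (Prod.ext_iff.1 h).1
      have h3 : z w.2 = z w'.2 := (Prod.ext_iff.1 h).2
      show (s w.2, z w.1) = (s w'.2, z w'.1)
      rw [(hsup w a).2, (hsup w' b).2, h2, h3]
  have a2 := CH_bayes hg (fun w => x w.1) (fun w => s w.1) (fun w => (s w.2, z w.1))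
  -- the first label
  have a3 : CH (glue p p ρ ρ) (fun w => s w.1) (fun w => (s w.2, z w.1)) ≤ CH p s z := by
    rw [← m1.CH s z]
    exact CH_mono_cond hg fun _ _ _ _ h => (Prod.ext_iff.1 h).2
  have a4 : CH p s (fun ω => (x ω, z ω)) ≤
      CH (glue p p ρ ρ) (fun w => s w.1) (fun w => (x w.1, (s w.2, z w.1))) := by
    have h1 : CH (glue p p ρ ρ) (fun w => s w.1) (fun w => (ρ w.1, w.2)) = CH p s ρ :=
      CH_glue_fst (Z₁ := ρ) (Z₂ := ρ) hp.nonneg hp.nonneg (fun _ => rfl) s (fun ω : Ω => ω)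
        (fun _ _ _ _ e => e)
    have h3 : CH p s (fun ω => (x ω, z ω)) = CH p s ρ := by rw [hρ]
    rw [h3, ← h1]
    refine CH_mono_cond hg fun w w' _ _ h => ?_
    have h2 : w.2 = w'.2 := (Prod.ext_iff.1 h).2
    have h4 : ρ w.1 = ρ w'.1 := (Prod.ext_iff.1 h).1
    rw [hρ] at h4
    simp only [Prod.mk.injEq] at h4 ⊢
    exact ⟨h4.1, by rw [h2], h4.2⟩
  have a5 := CH_bayes hp.nonneg x s z
  linarith

end two

section main

variable {Ω Z S N : Type} [Fintype Ω] {p : Ω → ℝ} {d : ℕ}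

/-- The count for one law: the label `lb` of the slab. -/
theorem count_lab {Ω Y : Type} [Fintype Ω] {p : Ω → ℝ} {d : ℕ} (hp : IsLaw p)
    (V : Ω → Fin d → ℤ) (y : Ω → Y) (lb : Ω → Option (Fin d)) {L L' : ℝ} (hL : 0 ≤ L)
    (hL' : 0 ≤ L')
    (hV : ∀ ω ω', 0 < p ω → 0 < p ω' → y ω = y ω' → ∀ k, |((V ω k - V ω' k : ℤ) : ℝ)| ≤ L)
    (hs : ∀ ω ω' l, 0 < p ω → 0 < p ω' → y ω = y ω' → lb ω = some l → lb ω' = some l →
      (∀ k, k ≠ l → V ω k = V ω' k) → |((V ω l - V ω' l : ℤ) : ℝ)| ≤ L') :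
    CH p V y ≤ Real.log (d + 1) + d * Real.log (2 * L + 1) -
      Pb p (fun ω => lb ω ≠ none) * (Real.log (2 * L + 1) - Real.log (2 * L' + 1)) := by
  classical
  have hp0 := hp.nonneg
  -- the label
  have b1 := CH_le_add hp0 V lb y
  have b2 : CH p lb y ≤ Real.log (d + 1) := by
    refine (CH_le_card hp0 hp.sum_one lb y (fun _ => Finset.univ) fun ω _ =>
      Finset.mem_univ _).trans ?_
    rw [Ex_const hp.sum_one]
    refine le_of_eq ?_
    congr 1
    rw [Finset.card_univ, Fintype.card_option, Fintype.card_fin]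
    push_cast
    ring
  -- the other coordinates, then the coordinate of the label
  obtain ⟨oth, hoth⟩ : ∃ oth : Ω → Fin d → ℤ, oth = fun ω k => if lb ω = some k then 0 else V ω k :=
    ⟨_, rfl⟩
  obtain ⟨own, hown⟩ : ∃ own : Ω → ℤ, own = fun ω => match lb ω with
    | none => 0
    | some l => V ω l := ⟨_, rfl⟩
  have b3 : CH p V (fun ω => (lb ω, y ω)) ≤ CH p oth (fun ω => (lb ω, y ω)) +
      CH p own (fun ω => (oth ω, (lb ω, y ω))) := by
    have c1 := CH_le_add hp0 V oth (fun ω => (lb ω, y ω))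
    refine c1.trans (add_le_add le_rfl ?_)
    refine CH_mono_left hp0 fun ω ω' _ _ h => ?_
    simp only [Prod.mk.injEq] at h
    obtain ⟨h1, h2, h3, h4⟩ := h
    funext k
    have h5 := congrFun h2 k
    rw [hoth] at h5
    simp only at h5
    by_cases hk : lb ω = some k
    · have hk' : lb ω' = some k := by rw [← h3, hk]
      rw [hown] at h1
      simp only [hk, hk'] at h1
      exact h1
    · have hk' : lb ω' ≠ some k := by rw [← h3]; exact hk
      rwa [if_neg hk, if_neg hk'] at h5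
  have b4 : CH p oth (fun ω => (lb ω, y ω)) ≤ Ex p (fun ω =>
      ∑ k, Real.log (2 * (if lb ω = some k then 0 else L) + 1)) := by
    refine CH_le_box hp oth (fun ω => (lb ω, y ω))
      (fun w k => if w.1 = some k then 0 else L) (fun w k => by
        split_ifs
        · exact le_rfl
        · exact hL) fun ω ω' h1 h2 h k => ?_
    have e1 : lb ω = lb ω' := (Prod.ext_iff.1 h).1
    have e2 : y ω = y ω' := (Prod.ext_iff.1 h).2
    rw [hoth]
    simp only [← e1]
    by_cases hk : lb ω = some k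
    · simp [hk]
    · simp only [if_neg hk]
      exact hV ω ω' h1 h2 e2 k
  have b5 : CH p own (fun ω => (oth ω, (lb ω, y ω))) ≤ Ex p (fun ω =>
      Real.log (2 * (if lb ω = none then 0 else L') + 1)) := by
    refine CH_le_int hp0 hp.sum_one own (fun ω => (oth ω, (lb ω, y ω)))
      (fun ω => if lb ω = none then 0 else L') fun ω ω' h1 h2 h => ?_
    simp only [Prod.mk.injEq] at h
    obtain ⟨e0, e1, e2⟩ := h
    rw [hown]
    rcases hlb : lb ω with _ | l
    · have hlb' : lb ω' = none := by rw [← e1, hlb]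
      simp [hlb, hlb']
    · have hlb' : lb ω' = some l := by rw [← e1, hlb]
      simp only [hlb, hlb', reduceCtorEq, if_false]
      refine hs ω ω' l h1 h2 e2 hlb hlb' fun k hk => ?_
      have h5 := congrFun e0 k
      rw [hoth] at h5
      simp only at h5
      rwa [if_neg (by rw [hlb]; exact fun h => hk (Option.some.inj h).symm),
        if_neg (by rw [hlb']; exact fun h => hk (Option.some.inj h).symm)] at h5
  -- the sum
  have b6 : ∀ ω, (∑ k, Real.log (2 * (if lb ω = some k then 0 else L) + 1)) +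
      Real.log (2 * (if lb ω = none then 0 else L') + 1) =
      d * Real.log (2 * L + 1) - (if lb ω ≠ none then 1 else 0) *
        (Real.log (2 * L + 1) - Real.log (2 * L' + 1)) := by
    intro ω
    rcases hlb : lb ω with _ | l
    · simp
    · have e1 : (∑ k : Fin d, Real.log (2 * (if (some l : Option (Fin d)) = some k then 0 else L)
          + 1)) = ∑ k : Fin d, (Real.log (2 * L + 1) -
            if l = k then Real.log (2 * L + 1) else 0) := by
        refine Finset.sum_congr rfl fun k _ => ?_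
        by_cases hk : l = k
        · simp [hk]
        · have : (some l : Option (Fin d)) ≠ some k := fun h => hk (Option.some.inj h)
          simp [hk]
      rw [e1, Finset.sum_sub_distrib, Finset.sum_ite_eq univ l, Finset.sum_const,
        Finset.card_univ, Fintype.card_fin, nsmul_eq_mul]
      simp
      ring
  have b7 : Ex p (fun ω => ∑ k, Real.log (2 * (if lb ω = some k then 0 else L) + 1)) +
      Ex p (fun ω => Real.log (2 * (if lb ω = none then 0 else L') + 1)) =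
      d * Real.log (2 * L + 1) - Pb p (fun ω => lb ω ≠ none) *
        (Real.log (2 * L + 1) - Real.log (2 * L' + 1)) := by
    rw [← Ex_add, Pb_ex]
    have e1 : (fun ω => (∑ k, Real.log (2 * (if lb ω = some k then 0 else L) + 1)) +
      Real.log (2 * (if lb ω = none then 0 else L') + 1)) = fun ω =>
      d * Real.log (2 * L + 1) - (Real.log (2 * L + 1) - Real.log (2 * L' + 1)) *
        (if lb ω ≠ none then 1 else 0) := by
      funext ω
      rw [b6]
      ring
    rw [e1, Ex_sub, Ex_const hp.sum_one, Ex_smul]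
    have e2 : (fun ω => if lb ω ≠ none then (1 : ℝ) else 0) =
        fun w => @ite ℝ (lb w ≠ none) (Classical.propDecidable _) 1 0 := by
      funext ω
      by_cases h : lb ω ≠ none
      · rw [if_pos h, if_pos h]
      · rw [if_neg h, if_neg h]
    rw [e2]
    ring
  linarith

/-- **Two plates.** -/
theorem two_plates (hp : IsLaw p) (V : Ω → Fin d → ℤ) (nu : Ω → N) (z : Ω → Z) (s : Ω → S)
    (P : Ω → Fin d → ℝ) (τ : ℝ) {L L' α β γ : ℝ} (hL : 0 ≤ L) (hL' : 0 ≤ L')
    (hfull : d * Real.log (2 * L + 1) - α ≤ CH p V (fun ω => (s ω, z ω)))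
    (hN : CH p nu (fun ω => (V ω, z ω)) ≤ β)
    (hfew : CH p nu (fun ω => (V ω, (s ω, z ω))) ≤ γ)
    (hV : ∀ ω ω', 0 < p ω → 0 < p ω' → z ω = z ω' → ∀ k, |((V ω k - V ω' k : ℤ) : ℝ)| ≤ L)
    (hs : ∀ ω₁ ω₂ ω₁' ω₂' l, 0 < p ω₁ → 0 < p ω₂ → 0 < p ω₁' → 0 < p ω₂' →
      V ω₁ = V ω₂ → nu ω₁ = nu ω₂ → z ω₁ = z ω₂ → V ω₁' = V ω₂' → nu ω₁' = nu ω₂' →
      z ω₁' = z ω₂' → z ω₁ = z ω₁' → s ω₁ = s ω₁' → s ω₂ = s ω₂' →
      τ < |P ω₁ l - P ω₂ l| → τ < |P ω₁' l - P ω₂' l| →
      (∀ k, k ≠ l → V ω₁ k = V ω₁' k) → |((V ω₁ l - V ω₁' l : ℤ) : ℝ)| ≤ L') :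
    ∃ Fs : (Fin d → ℤ) × (N × Z) → Ω,
      Pb p (fun ω => ∃ l, τ < |P ω l - P (Fs (V ω, (nu ω, z ω))) l|) *
        (Real.log (2 * L + 1) - Real.log (2 * L' + 1)) ≤
          2 * α + β + γ + Real.log (d + 1) ∨
      Real.log (2 * L + 1) ≤ Real.log (2 * L' + 1) := by
  classical
  have hp0 := hp.nonneg
  obtain ⟨x, hx⟩ : ∃ x : Ω → (Fin d → ℤ) × N, x = fun ω => (V ω, nu ω) := ⟨_, rfl⟩
  obtain ⟨ρ, hρ⟩ : ∃ ρ : Ω → ((Fin d → ℤ) × N) × Z, ρ = fun ω => (x ω, z ω) := ⟨_, rfl⟩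
  have hg : ∀ w, 0 ≤ glue p p ρ ρ w := fun w => glue_nonneg hp0 hp0 w
  have m1 : Marg (glue p p ρ ρ) p (fun w => w.1) := marg_fst hp0 (fun _ => rfl)
  have m2 : Marg (glue p p ρ ρ) p (fun w => w.2) := marg_snd hp0 (fun _ => rfl)
  have hgl : IsLaw (glue p p ρ ρ) := ⟨hg, by rw [m1.sum, hp.sum_one]⟩
  have hsup : ∀ w, 0 < glue p p ρ ρ w → V w.1 = V w.2 ∧ nu w.1 = nu w.2 ∧ z w.1 = z w.2 :=
    fun w hw => by
      have h1 := ((glue_pos_iff hp0 hp0 w).1 hw).2.2
      rw [hρ, hx] at h1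
      simp only [Prod.mk.injEq] at h1
      exact ⟨h1.1.1, h1.1.2, h1.2⟩
  -- the label of the slab
  obtain ⟨lb, hlb⟩ : ∃ lb : Ω × Ω → Option (Fin d), lb = fun w =>
    if h : ∃ l, τ < |P w.1 l - P w.2 l| then some h.choose else none := ⟨_, rfl⟩
  have hlb1 : ∀ w l, lb w = some l → τ < |P w.1 l - P w.2 l| := by
    intro w l hl
    rw [hlb] at hl
    simp only at hl
    by_cases h : ∃ l, τ < |P w.1 l - P w.2 l|
    · rw [dif_pos h] at hl
      rw [← Option.some.inj hl]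
      exact h.choose_spec
    · rw [dif_neg h] at hl
      exact absurd hl (by simp)
  have hlb2 : ∀ w, lb w ≠ none ↔ ∃ l, τ < |P w.1 l - P w.2 l| := by
    intro w
    rw [hlb]
    simp only
    by_cases h : ∃ l, τ < |P w.1 l - P w.2 l|
    · rw [dif_pos h]
      simp [h]
    · rw [dif_neg h]
      simp only [ne_eq, not_true_eq_false, false_iff]
      exact h
  have t1 := two_copies hp x z s
  rw [← hρ] at t1
  have t2 := count_lab hgl (fun w => V w.1) (fun w => (s w.1, (s w.2, z w.1))) lb hL hL'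
    (fun w w' h h' e k => by
      simp only [Prod.mk.injEq] at e
      exact hV w.1 w'.1 (m1.pos hg h) (m1.pos hg h') e.2.2 k)
    (fun w w' l h h' e h1 h2 h3 => by
      simp only [Prod.mk.injEq] at e
      obtain ⟨a1, a2, a3⟩ := hsup w h
      obtain ⟨b1, b2, b3⟩ := hsup w' h'
      exact hs w.1 w.2 w'.1 w'.2 l (m1.pos hg h) (m2.pos hg h) (m1.pos hg h') (m2.pos hg h')
        a1 a2 a3 b1 b2 b3 e.2.2 e.1 e.2.1 (hlb1 w l h1) (hlb1 w' l h2) h3)
  -- the height
  have t3 : CH (glue p p ρ ρ) (fun w => x w.1) (fun w => (s w.1, (s w.2, z w.1))) ≤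
      CH (glue p p ρ ρ) (fun w => V w.1) (fun w => (s w.1, (s w.2, z w.1))) + γ := by
    have c1 := CH_chain hg (fun w => nu w.1) (fun w => V w.1) (fun w => (s w.1, (s w.2, z w.1)))
    have c2 : CH (glue p p ρ ρ) (fun w => x w.1) (fun w => (s w.1, (s w.2, z w.1))) =
        CH (glue p p ρ ρ) (fun w => (nu w.1, V w.1)) (fun w => (s w.1, (s w.2, z w.1))) := by
      refine CH_congr hg ?_ ?_ (fun _ _ _ _ h => h) (fun _ _ _ _ h => h)
      · intro w w' _ _ h
        rw [hx] at h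
        simp only [Prod.mk.injEq] at h ⊢
        exact ⟨h.1.2, h.1.1⟩
      · intro w w' _ _ h
        rw [hx]
        simp only [Prod.mk.injEq] at h ⊢
        exact ⟨h.1.2, h.1.1⟩
    have c3 : CH (glue p p ρ ρ) (fun w => nu w.1) (fun w => (V w.1, (s w.1, (s w.2, z w.1)))) ≤
        CH p nu (fun ω => (V ω, (s ω, z ω))) := by
      rw [← m1.CH nu (fun ω => (V ω, (s ω, z ω)))]
      refine CH_mono_cond hg fun w w' _ _ h => ?_
      simp only [Prod.mk.injEq] at h ⊢
      exact ⟨h.1, h.2.1, h.2.2.2⟩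
    linarith
  have t4 : CH p V (fun ω => (s ω, z ω)) ≤ CH p x (fun ω => (s ω, z ω)) :=
    CH_mono_left hp0 fun ω ω' _ _ h => by
      rw [hx] at h
      simp only [Prod.mk.injEq] at h
      exact h.1.1
  have t5 : CH p x z ≤ d * Real.log (2 * L + 1) + β := by
    have c1 := CH_chain hp0 nu V z
    have c2 : CH p x z = CH p (fun ω => (nu ω, V ω)) z := by
      refine CH_congr hp0 ?_ ?_ (fun _ _ _ _ h => h) (fun _ _ _ _ h => h)
      · intro w w' _ _ h
        rw [hx] at h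
        simp only [Prod.mk.injEq] at h ⊢
        exact ⟨h.1.2, h.1.1⟩
      · intro w w' _ _ h
        rw [hx]
        simp only [Prod.mk.injEq] at h ⊢
        exact ⟨h.1.2, h.1.1⟩
    have c3 := CH_le_vec hp0 hp.sum_one V z (fun _ => L) hV
    rw [Ex_const hp.sum_one] at c3
    linarith
  have e1 : Pb (glue p p ρ ρ) (fun w => lb w ≠ none) =
      Pb (glue p p ρ ρ) (fun w => ∃ l, τ < |P w.1 l - P w.2 l|) := by
    unfold Pb
    refine Finset.sum_congr rfl fun w _ => ?_
    by_cases h : lb w ≠ none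
    · rw [if_pos h, if_pos ((hlb2 w).1 h)]
    · rw [if_neg h, if_neg (fun h' => h ((hlb2 w).2 h'))]
  rw [e1] at t2
  obtain ⟨Gs, hGs⟩ := sel_pb hp0 hp.sum_one ρ (fun ω ω' => ∃ l, τ < |P ω l - P ω' l|)
  refine ⟨fun y => Gs ((y.1, y.2.1), y.2.2), ?_⟩
  by_cases hLL : Real.log (2 * L + 1) ≤ Real.log (2 * L' + 1)
  · exact Or.inr hLL
  left
  have e2 : (fun ω => ∃ l, τ < |P ω l - P (Gs (ρ ω)) l|) =
      fun ω => ∃ l, τ < |P ω l - P (Gs (((V ω, (nu ω, z ω)).1, (V ω, (nu ω, z ω)).2.1),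
        (V ω, (nu ω, z ω)).2.2)) l| := by
    funext ω
    rw [hρ, hx]
  rw [e2] at hGs
  have h5 := mul_le_mul_of_nonneg_right hGs
    (show 0 ≤ Real.log (2 * L + 1) - Real.log (2 * L' + 1) by linarith [not_le.1 hLL])
  linarith

end main

end Pool.GRD
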